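import Pool.Agent.K3h30.SU4.Main

/-!
# MP_ca7eb7_al, Q1: every element of `SU(n)`, `n ≥ 3`, is a product of four involutions of `SU(n)`

For `n` odd or divisible by four a diagonal factorisation into two strongly reversible elements is
enough. For `n = 2 (mod 4)` one uses one non-commuting two-dimensional block. After a cyclic shift
of the eigenvalues the block sits at positions `l` and `n - 1` (`l` even), and the
factors have spectra closed under conjugation and contain a twofold eigenvalue `1` or `-1`. The
block exists when a chord condition holds. If not all eigenvalues lie in one open half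
plane, `l = 0` works; otherwise a discrete intermediate value argument on the sums of `n / 2`
consecutive arguments gives `l = n / 2 - 1`.
-/

namespace Pool.Agent.Results.MP_ca7eb7_al.FourInvolutions

/-- Q1: for every `n ≥ 3`, every element of `SU(n)` is a product of four involutions of
`SU(n)`. -/
theorem result : ∀ n : ℕ, 3 ≤ n → ∀ A ∈ Matrix.specialUnitaryGroup (Fin n) ℂ,
    ∃ g : Fin 4 → Matrix (Fin n) (Fin n) ℂ,
      (∀ i, g i ∈ Matrix.specialUnitaryGroup (Fin n) ℂ ∧ g i * g i = 1) ∧
        A = g 0 * g 1 * g 2 * g 3 := by
  intro n hn A hA
  obtain ⟨I1, I2, I3, I4, h1, h2, h3, h4, h⟩ := Pool.Agent.K3h30.SU4.four hn hA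
  refine ⟨![I1, I2, I3, I4], ?_, ?_⟩
  · intro i
    fin_cases i
    · exact h1
    · exact h2
    · exact h3
    · exact h4
  · exact h

end Pool.Agent.Results.MP_ca7eb7_al.FourInvolutions
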